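import Pool.Agent.H44.DU.Targets

/-!
# Module CA of the board du_modules: the abstract contraction lemma
-/

set_option autoImplicit false

namespace Pool.Agent.H85.DU.CA

open Pool.Agent.H44.DU

/-- the quotients do not increase -/
lemma kap_mono {m : ℕ} {a h : ℕ → ℝ} (hp : ∀ k < m, 0 < a k ∧ 0 < h k)
    {j : ℕ} (hj : j + 1 < m) {c : ℝ}
    (hc : 0 ≤ c) (he : (1 + c) * (a (j + 1) * h j) ≤ h (j + 1)) :
    (∏ i ∈ Finset.range (j + 2), a i) / h (j + 1) ≤
      (1 + c)⁻¹ * ((∏ i ∈ Finset.range (j + 1), a i) / h j) := by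
  have h1 := (hp j (by omega)).2
  have h2 := (hp (j + 1) hj).2
  have h3 : 0 < ∏ i ∈ Finset.range (j + 1), a i :=
    Finset.prod_pos fun i hi => (hp i (by rw [Finset.mem_range] at hi; omega)).1
  have h4 : 0 < 1 + c := by linarith
  rw [Finset.prod_range_succ, div_le_iff₀ h2]
  have e : (1 + c)⁻¹ * ((∏ i ∈ Finset.range (j + 1), a i) / h j) * h (j + 1) =
      (∏ i ∈ Finset.range (j + 1), a i) * (h (j + 1) / ((1 + c) * h j)) := by
    field_simp
  rw [e]
  refine mul_le_mul_of_nonneg_left ?_ h3.le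
  rw [le_div_iff₀ (mul_pos h4 h1)]
  linarith

theorem pf_CA : T_CA := by
  intro c D M L J hc hD hM
  rcases Nat.eq_zero_or_pos L with hL | hL
  · subst hL
    refine ⟨1, one_pos, 1 / 2, by norm_num, by norm_num, fun m a h _ _ h3 _ => ?_⟩
    obtain ⟨j, _, hj, _⟩ := h3 0 (by omega)
    omega
  obtain ⟨q, hq⟩ : ∃ q : ℝ, q = (1 + c)⁻¹ := ⟨_, rfl⟩
  have h1c : 0 < 1 + c := by linarith
  have hq0 : 0 < q := by rw [hq]; positivity
  have hq1 : q < 1 := by
    rw [hq]
    exact inv_lt_one_of_one_lt₀ (by linarith)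
  have hL' : (1 : ℝ) ≤ L := by exact_mod_cast hL
  obtain ⟨ρ, hρ⟩ : ∃ ρ : ℝ, ρ = 1 + -((1 - q) / L) := ⟨_, rfl⟩
  have hx0 : 0 < (1 - q) / L := div_pos (by linarith) (by linarith)
  have hx1 : (1 - q) / L < 1 := by
    rw [div_lt_one (by linarith)]
    linarith
  have hρ0 : 0 < ρ := by rw [hρ]; linarith
  have hρ1 : ρ < 1 := by rw [hρ]; linarith
  have hρL : q ≤ ρ ^ L := by
    have h1 := one_add_mul_le_pow (show (-2 : ℝ) ≤ -((1 - q) / L) by linarith) L
    rw [← hρ] at h1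
    have h2 : 1 + (L : ℝ) * -((1 - q) / L) = q := by
      field_simp
      ring
    rwa [h2] at h1
  obtain ⟨M1, hM1⟩ : ∃ M1 : ℝ, M1 = max M 1 := ⟨_, rfl⟩
  have hM11 : 1 ≤ M1 := by rw [hM1]; exact le_max_right _ _
  have hMM1 : M ≤ M1 := by rw [hM1]; exact le_max_left _ _
  obtain ⟨C1, hC1⟩ : ∃ C1 : ℝ, C1 = M1 ^ J / ρ ^ J := ⟨_, rfl⟩
  obtain ⟨C2, hC2⟩ : ∃ C2 : ℝ, C2 = D * (M1 ^ (J + 1) / c) / (ρ ^ J * q) := ⟨_, rfl⟩
  have hC10 : 0 < C1 := by rw [hC1]; positivity
  have hC20 : 0 < C2 := by rw [hC2]; positivity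
  refine ⟨C1 + C2, by positivity, ρ, hρ0, hρ1, ?_⟩
  intro m a h hb hs hw hJ
  have hprod : ∀ k ≤ m, ∏ i ∈ Finset.range k, a i ≤ M1 ^ k := by
    intro k hk
    calc ∏ i ∈ Finset.range k, a i ≤ ∏ i ∈ Finset.range k, M1 :=
          Finset.prod_le_prod (fun i hi => (hb i (by rw [Finset.mem_range] at hi; omega)).1.le)
            fun i hi => ((hb i (by rw [Finset.mem_range] at hi; omega)).2.1).trans hMM1
      _ = M1 ^ k := by rw [Finset.prod_const, Finset.card_range]
  rcases Nat.lt_or_ge J m with hJm | hJm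
  · obtain ⟨j0, hj0, hcj0⟩ := hJ hJm
    have hp : ∀ k < m, 0 < a k ∧ 0 < h k := fun k hk => ⟨(hb k hk).1, (hb k hk).2.2.1⟩
    obtain ⟨κ, hκ⟩ : ∃ κ : ℕ → ℝ, κ = fun j => (∏ i ∈ Finset.range (j + 1), a i) / h j := ⟨_, rfl⟩
    have hκ' : ∀ j, κ j = (∏ i ∈ Finset.range (j + 1), a i) / h j := fun j => by rw [hκ]
    have hstep : ∀ j, j + 1 < m → κ (j + 1) ≤ κ j := by
      intro j hj
      have h1 := kap_mono hp hj le_rfl (by rw [add_zero, one_mul]; exact hs j hj)
      rw [add_zero, inv_one, one_mul] at h1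
      rw [hκ', hκ']
      exact h1
    have hmono : ∀ i j, i ≤ j → j < m → κ j ≤ κ i := by
      intro i j hij
      induction j, hij using Nat.le_induction with
      | base => exact fun _ => le_rfl
      | succ j hij ih => exact fun hj => (hstep j hj).trans (ih (by omega))
    have hev : ∀ i, j0 + i * L < m → κ (j0 + i * L) ≤ q ^ i * κ j0 := by
      intro i
      induction i with
      | zero => intro _; simp
      | succ i ih =>
        intro hi
        have e1 : j0 + (i + 1) * L = j0 + i * L + L := by ring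
        rw [e1] at hi ⊢
        obtain ⟨j, hj1, hj2, hj3⟩ := hw (j0 + i * L) hi.le
        have h1 := hmono (j + 1) (j0 + i * L + L) (by omega) hi
        have h2 := kap_mono hp (show j + 1 < m by omega) hc.le hj3
        rw [← hκ' (j + 1), ← hκ' j, ← hq] at h2
        have h3 := hmono (j0 + i * L) j hj1 (by omega)
        have h4 := ih (by omega)
        calc κ (j0 + i * L + L) ≤ q * κ j := h1.trans h2
          _ ≤ q * (q ^ i * κ j0) := mul_le_mul_of_nonneg_left (h3.trans h4) hq0.le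
          _ = q ^ (i + 1) * κ j0 := by ring
    obtain ⟨i, hi⟩ : ∃ i, i = (m - 1 - j0) / L := ⟨_, rfl⟩
    have hi1 : j0 + i * L ≤ m - 1 := by
      have := Nat.div_mul_le_self (m - 1 - j0) L
      rw [← hi] at this
      omega
    have hi2 : m ≤ L * (i + 1) + J := by
      have := Nat.lt_mul_div_succ (m - 1 - j0) hL
      rw [← hi] at this
      omega
    have hκm : κ (m - 1) ≤ q ^ i * κ j0 :=
      (hmono _ _ hi1 (by omega)).trans (hev i (by omega))
    have hκ0 : κ j0 ≤ M1 ^ (J + 1) / c := by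
      rw [hκ']
      have h1 : ∏ i ∈ Finset.range (j0 + 1), a i ≤ M1 ^ (J + 1) :=
        (hprod (j0 + 1) (by omega)).trans (pow_le_pow_right₀ hM11 (by omega))
      exact div_le_div₀ (by positivity) h1 hc hcj0
    have hfin : ∏ k ∈ Finset.range m, a k = κ (m - 1) * h (m - 1) := by
      rw [hκ', div_mul_cancel₀ _ (hp (m - 1) (by omega)).2.ne']
      congr 2
      omega
    have hDm := (hb (m - 1) (by omega)).2.2.2
    have hh := (hp (m - 1) (by omega)).2
    have hpow : q ^ i * (ρ ^ J * q) ≤ ρ ^ m := by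
      have h1 : ρ ^ (L * (i + 1) + J) ≤ ρ ^ m := pow_le_pow_of_le_one hρ0.le hρ1.le hi2
      refine le_trans ?_ h1
      rw [pow_add, pow_mul]
      calc q ^ i * (ρ ^ J * q) = q ^ (i + 1) * ρ ^ J := by ring
        _ ≤ (ρ ^ L) ^ (i + 1) * ρ ^ J :=
          mul_le_mul_of_nonneg_right (pow_le_pow_left₀ hq0.le hρL _) (by positivity)
    have hqi : q ^ i ≤ ρ ^ m / (ρ ^ J * q) := by
      rw [le_div_iff₀ (by positivity)]
      exact hpow
    have hX : 0 ≤ M1 ^ (J + 1) / c := by positivity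
    have h5 : κ (m - 1) ≤ q ^ i * (M1 ^ (J + 1) / c) :=
      hκm.trans (mul_le_mul_of_nonneg_left hκ0 (by positivity))
    have h6 : κ (m - 1) * h (m - 1) ≤ q ^ i * (M1 ^ (J + 1) / c) * D :=
      mul_le_mul h5 hDm hh.le (by positivity)
    calc ∏ k ∈ Finset.range m, a k = κ (m - 1) * h (m - 1) := hfin
      _ ≤ q ^ i * (M1 ^ (J + 1) / c) * D := h6
      _ ≤ ρ ^ m / (ρ ^ J * q) * (M1 ^ (J + 1) / c) * D :=
        mul_le_mul_of_nonneg_right (mul_le_mul_of_nonneg_right hqi hX) hD.le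
      _ = C2 * ρ ^ m := by
        rw [hC2]
        ring
      _ ≤ (C1 + C2) * ρ ^ m := mul_le_mul_of_nonneg_right (by linarith) (by positivity)
  · have h1 : ∏ k ∈ Finset.range m, a k ≤ M1 ^ J :=
      (hprod m le_rfl).trans (pow_le_pow_right₀ hM11 hJm)
    have h2 : M1 ^ J = C1 * ρ ^ J := by
      rw [hC1, div_mul_cancel₀ _ (by positivity)]
    calc ∏ k ∈ Finset.range m, a k ≤ C1 * ρ ^ J := by rw [← h2]; exact h1
      _ ≤ C1 * ρ ^ m :=
        mul_le_mul_of_nonneg_left (pow_le_pow_of_le_one hρ0.le hρ1.le hJm) hC10.le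
      _ ≤ (C1 + C2) * ρ ^ m := mul_le_mul_of_nonneg_right (by linarith) (by positivity)

end Pool.Agent.H85.DU.CA
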