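import Pool.Agent.H44.DU.Targets

/-!
# Module HR of the board du_modules: the heights along a word of the upper part
-/

set_option autoImplicit false

namespace Pool.Agent.H85.DU.HR

open Pool.Agent.H44.DU

variable {n : ℕ}

lemma hgt_T {U T : Fin n → Prop} {i : Fin n} (h : T i) (z : ℂ) : hgt U T i z = 1 := by
  unfold hgt
  rw [if_pos h]

lemma hgt_U {U T : Fin n → Prop} {i : Fin n} (h : ¬ T i) (hU : U i) (z : ℂ) :
    hgt U T i z = z.im := by
  unfold hgt
  rw [if_neg h, if_pos hU]

lemma hgt_im {U T : Fin n → Prop} (i : Fin n) {z w : ℂ} (h : z.im = w.im) :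
    hgt U T i z = hgt U T i w := by
  unfold hgt
  rw [h]

lemma im_aff (p q : ℂ) (l : ℝ) : (p + (l : ℂ) * (q - p)).im = (1 - l) * p.im + l * q.im := by
  simp
  ring

lemma hgt_aff (U T : Fin n → Prop) (i : Fin n) (p q : ℂ) (l : ℝ) :
    hgt U T i (p + (l : ℂ) * (q - p)) = (1 - l) * hgt U T i p + l * hgt U T i q := by
  unfold hgt
  rw [im_aff]
  split_ifs <;> ring

lemma abs_hgt_le (U T : Fin n → Prop) (i : Fin n) (z : ℂ) : |hgt U T i z| ≤ 1 + |z.im| := by
  unfold hgt
  split_ifs
  · rw [abs_one]
    linarith [abs_nonneg z.im]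
  · linarith
  · rw [abs_neg]
    linarith

variable (S : Surf n)

lemma lam_mem {t x : ℝ} {s : Side n} (h : S.InJ t s x ∨ S.InI t s x) :
    0 < S.lam t s x ∧ S.lam t s x < 1 := by
  unfold Surf.lam
  rcases h with h | h
  · obtain ⟨h1, h2⟩ := h
    have h3 : 0 < xi t (S.P s) - xi t (S.Q s) := by linarith
    constructor
    · exact div_pos (by linarith) h3
    · rw [div_lt_one h3]
      linarith
  · obtain ⟨h1, h2⟩ := h
    have h3 : 0 < xi t (S.Q s) - xi t (S.P s) := by linarith
    rw [← neg_sub x, ← neg_sub (xi t (S.Q s)), neg_div_neg_eq]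
    constructor
    · exact div_pos (by linarith) h3
    · rw [div_lt_one h3]
      linarith

theorem pf_HR (h1 : T_PT) (h2 : T_CR) : T_HR := by
  intro n S U T hM
  have nP : ∀ s : Side n, 0 ≤ hgt U T s.1 (S.P s) := fun s => hM.nonneg s.1 s.2
  have nQ : ∀ s : Side n, 0 ≤ hgt U T s.1 (S.Q s) := fun s => hM.nonneg s.1 (s.2 + 1)
  have nO : ∀ s : Side n, 0 ≤ hgt U T s.1 (S.O s) := fun s => hM.nonneg s.1 (s.2 + 2)
  refine ⟨?_, ?_, ?_⟩
  · intro t x r hJ hU
    have hlam := lam_mem S (Or.inl hJ)
    have hne : xi t (S.P r) ≠ xi t (S.Q r) := by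
      have := hJ.1.trans hJ.2
      exact this.ne'
    have hpt := (h1 n S t r hne).2.1 x
    have ha := S.a_pos r
    -- the point after the gluing, as a point of the other side
    have hpt' : S.pt t (S.gl r) (S.mv t r x) =
        S.Q (S.gl r) + (S.lam t r x : ℂ) * (S.P (S.gl r) - S.Q (S.gl r)) := by
      rw [← hpt, S.Q_gl, S.P_gl, Surf.pt]
      ring
    have hin_eq : S.hin U T t r (S.mv t r x) = (1 - S.lam t r x) * hgt U T (S.gl r).1 (S.Q (S.gl r))
        + S.lam t r x * hgt U T (S.gl r).1 (S.P (S.gl r)) := by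
      rw [Surf.hin, hpt', hgt_aff]
    have hout_eq : S.hout U T t r x = (1 - S.lam t r x) * hgt U T r.1 (S.P r)
        + S.lam t r x * hgt U T r.1 (S.Q r) := by
      rw [Surf.hout, Surf.pt, hgt_aff]
    have imQ : (S.Q (S.gl r)).im = S.a r * (S.P r).im + (S.b r).im := by
      rw [S.Q_gl]
      simp
    have imP : (S.P (S.gl r)).im = S.a r * (S.Q r).im + (S.b r).im := by
      rw [S.P_gl]
      simp
    by_cases hf : (S.P r).im = (S.Q r).im
    · -- flat
      have hre : (S.Q r).re < (S.P r).re := by
        have h3 := hJ.1.trans hJ.2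
        simp only [xi] at h3
        rw [hf] at h3
        linarith
      have hU' := hM.flat_imp r hf hre hU
      have hup := hM.flat_upper r hf hre hU
      have e1 : hgt U T r.1 (S.Q r) = hgt U T r.1 (S.P r) := hgt_im _ hf.symm
      have e2 : hgt U T (S.gl r).1 (S.P (S.gl r)) = hgt U T (S.gl r).1 (S.Q (S.gl r)) :=
        hgt_im _ (by rw [imP, imQ, hf])
      have e3 : S.hout U T t r x = hgt U T r.1 (S.P r) := by
        rw [hout_eq, e1]
        ring
      have e4 : S.hin U T t r (S.mv t r x) = hgt U T (S.gl r).1 (S.Q (S.gl r)) := by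
        rw [hin_eq, e2]
        ring
      refine ⟨hU', ?_, ?_, fun _ => hf, ?_⟩
      · rw [e3]
        by_cases hT : T r.1
        · rw [hgt_T hT]
          exact one_pos
        · rw [hgt_U hT hU]
          have h4 := S.ar_pos r
          have h5 := nO r
          rw [hgt_U hT hU] at h5
          simp only [Surf.ar, Complex.sub_re, Complex.sub_im] at h4
          rw [← hf, sub_self, zero_mul, sub_zero] at h4
          by_contra hc
          have h6 : 0 ≤ (S.O r).im - (S.P r).im := by linarith
          have h7 : (S.Q r).re - (S.P r).re < 0 := by linarith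
          nlinarith
      · rw [e3, e4]
        exact hup
      · intro hT hT'
        rw [hgt_T hT, hgt_T hT', mul_one] at hup
        exact hup
    · -- slanted
      have hU' : U (S.gl r).1 := (hM.slant_iff r hf).1 hU
      have e1 := hM.slant_hgt r hf
      have hf' : (S.P (S.gl r)).im ≠ (S.Q (S.gl r)).im := by
        rw [imP, imQ]
        intro hc
        exact hf (mul_left_cancel₀ ha.ne' (add_right_cancel hc)).symm
      have e2 := hM.slant_hgt (S.gl r) hf'
      rw [S.gl_gl] at e2
      have e3 : hgt U T (S.gl r).1 (S.P (S.gl r)) = S.a r * hgt U T r.1 (S.Q r) := by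
        rw [e2, ← mul_assoc, mul_comm (S.a r), S.a_gl_mul, one_mul]
      refine ⟨hU', ?_, ?_, ?_, ?_⟩
      · rw [hout_eq]
        by_cases hT : T r.1
        · rw [hgt_T hT, hgt_T hT]
          linarith
        · have h3 := nP r
          have h4 := nQ r
          rw [hgt_U hT hU] at h3 h4
          rw [hgt_U hT hU, hgt_U hT hU]
          have h5 : 0 < 1 - S.lam t r x := by linarith [hlam.2]
          rcases lt_or_gt_of_ne hf with h6 | h6
          · have h7 : 0 < (S.Q r).im := lt_of_le_of_lt h3 h6
            have h8 := mul_pos hlam.1 h7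
            have h9 := mul_nonneg h5.le h3
            linarith
          · have h7 : 0 < (S.P r).im := lt_of_le_of_lt h4 h6
            have h8 := mul_pos h5 h7
            have h9 := mul_nonneg hlam.1.le h4
            linarith
      · rw [hout_eq, hin_eq, e1, e3]
        apply le_of_eq
        ring
      · intro hTT
        exfalso
        apply hf
        by_cases hT : T r.1
        · have hT' := hTT.1 hT
          rw [hgt_T hT, hgt_U hT' hU'] at e1 e3
          rw [imQ] at e1
          rw [imP] at e3
          have h3 : S.a r * (S.P r).im = S.a r * (S.Q r).im := by linarith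
          exact mul_left_cancel₀ ha.ne' h3
        · have hT' : T (S.gl r).1 := by
            by_contra hc
            exact hT (hTT.2 hc)
          rw [hgt_T hT', hgt_U hT hU] at e1 e3
          have h3 : S.a r * (S.P r).im = S.a r * (S.Q r).im := by rw [← e1, ← e3]
          exact mul_left_cancel₀ ha.ne' h3
      · intro hT hT'
        rw [hgt_T hT, hgt_T hT', mul_one] at e1
        exact e1.symm.le
  · intro t x r r' hr hU hI hJ
    refine ⟨fun hT => ?_, fun hT => ?_⟩
    · refine ⟨?_, ?_⟩
      · rw [Surf.hin, hr, hgt_T hT]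
      · rw [Surf.hout, hgt_T hT]
    · refine ⟨?_, ?_⟩
      · rw [Surf.hout, Surf.hin, Surf.sg, hr, hgt_U hT hU, hgt_U hT hU]
        ring
      · rw [Surf.sg]
        have := ((h2 n S t x).1 (S.gl r) r' hr hI hJ).1
        linarith
  · refine ⟨1 + ∑ r : Side n, (|(S.P r).im| + |(S.Q r).im|), ?_, ?_⟩
    · have : 0 ≤ ∑ r : Side n, (|(S.P r).im| + |(S.Q r).im|) :=
        Finset.sum_nonneg fun r _ => by positivity
      linarith
    · intro t x r h
      have hlam := lam_mem S h
      have h3 : |(S.pt t r x).im| ≤ |(S.P r).im| + |(S.Q r).im| := by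
        rw [Surf.pt, im_aff]
        refine (abs_add_le _ _).trans ?_
        rw [abs_mul, abs_mul, abs_of_pos hlam.1, abs_of_pos (by linarith [hlam.2] :
          0 < 1 - S.lam t r x)]
        have h4 : (1 - S.lam t r x) * |(S.P r).im| ≤ 1 * |(S.P r).im| :=
          mul_le_mul_of_nonneg_right (by linarith [hlam.1]) (abs_nonneg _)
        have h5 : S.lam t r x * |(S.Q r).im| ≤ 1 * |(S.Q r).im| :=
          mul_le_mul_of_nonneg_right hlam.2.le (abs_nonneg _)
        linarith
      have h6 : |(S.P r).im| + |(S.Q r).im| ≤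
          ∑ r : Side n, (|(S.P r).im| + |(S.Q r).im|) :=
        Finset.single_le_sum (f := fun r : Side n => |(S.P r).im| + |(S.Q r).im|)
          (fun r _ => by positivity) (Finset.mem_univ r)
      have h7 := abs_hgt_le U T r.1 (S.pt t r x)
      linarith

end Pool.Agent.H85.DU.HR
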